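import Pool.Agent.Helper55_CCC.Cusp

/-!
# Finite quotients of linear groups which are integral outside `s` in some basis
-/

set_option autoImplicit false

namespace Pool.Agent.CuspCov

open Matrix

/-- `coreS` for a group whose matrices are integral outside `s` after a change of basis -/
theorem coreSConj {G : Type} [Group G] (hG : Group.FG G) {m : Type} [Fintype m] [DecidableEq m]
    (ρ : G →* Matrix m m ℝ) (A B : Matrix m m ℝ) (hAB : A * B = 1) (hBA : B * A = 1)
    (s : ℕ) (hs : 0 < s) (hint : ∀ g p q, SInt s ((A * ρ g * B) p q))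
    {ι κ : Type} [Fintype ι] [Fintype κ] [DecidableEq κ]
    (X : ι → κ → Matrix m m ℝ) (hX : ∀ i, LinearIndependent ℝ (X i))
    (hXg : ∀ i j, ∃ g, X i j * X i j * X i j = 0 ∧
      ρ g = 1 + X i j + (1/2 : ℝ) • (X i j * X i j)) :
    ∃ L : ι → Set (κ → ℤ), ∀ t : ℕ, 0 < t → Nat.Coprime t s →
      ∃ N : Subgroup G, N.Normal ∧ N.FiniteIndex ∧
        ∀ (i : ι) (g : G) (a : κ → ℤ) (Z : Matrix m m ℝ), Z = ∑ j, (a j : ℝ) • X i j →
          Z * Z * Z = 0 → ρ g = 1 + Z + (1/2 : ℝ) • (Z * Z) →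
          (g ∈ N ↔ ∃ b ∈ L i, ∀ j, a j = t * b j) := by
  classical
  have hmul : ∀ Y Z : Matrix m m ℝ, A * (Y * Z) * B = (A * Y * B) * (A * Z * B) := by
    intro Y Z
    calc A * (Y * Z) * B = A * Y * 1 * Z * B := by rw [mul_one, ← mul_assoc A Y Z]
      _ = A * Y * (B * A) * Z * B := by rw [hBA]
      _ = (A * Y * B) * (A * Z * B) := by simp only [mul_assoc]
  have hone : A * 1 * B = 1 := by rw [mul_one, hAB]
  have hback : ∀ Y : Matrix m m ℝ, B * (A * Y * B) * A = Y := by
    intro Y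
    calc B * (A * Y * B) * A = (B * A) * Y * (B * A) := by simp only [mul_assoc]
      _ = Y := by rw [hBA, one_mul, mul_one]
  have hsum : ∀ (c : κ → ℝ) (Y : κ → Matrix m m ℝ),
      A * (∑ j, c j • Y j) * B = ∑ j, c j • (A * Y j * B) := by
    intro c Y
    rw [Matrix.mul_sum, Matrix.sum_mul]
    refine Finset.sum_congr rfl fun j _ => ?_
    rw [Matrix.mul_smul, Matrix.smul_mul]
  have hexp : ∀ Z : Matrix m m ℝ, A * (1 + Z + (1/2 : ℝ) • (Z * Z)) * B
      = 1 + A * Z * B + (1/2 : ℝ) • ((A * Z * B) * (A * Z * B)) := by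
    intro Z
    rw [mul_add, mul_add, add_mul, add_mul, hone, Matrix.mul_smul, Matrix.smul_mul, hmul]
  have hcub : ∀ Z : Matrix m m ℝ, Z * Z * Z = 0 →
      (A * Z * B) * (A * Z * B) * (A * Z * B) = 0 := by
    intro Z hZ
    rw [← hmul, ← hmul, hZ, mul_zero, zero_mul]
  let ρ' : G →* Matrix m m ℝ :=
    { toFun := fun g => A * ρ g * B
      map_one' := by rw [map_one, hone]
      map_mul' := fun g h => by rw [map_mul, hmul] }
  obtain ⟨L, hL⟩ := coreS hG ρ' s hs hint (fun i j => A * X i j * B)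
    (by
      intro i
      rw [Fintype.linearIndependent_iff]
      intro c hc
      refine Fintype.linearIndependent_iff.mp (hX i) c ?_
      have h1 : A * (∑ j, c j • X i j) * B = 0 := by rw [hsum]; exact hc
      rw [← hback (∑ j, c j • X i j), h1, mul_zero, zero_mul])
    (by
      intro i j
      obtain ⟨g, hg0, hg⟩ := hXg i j
      refine ⟨g, hcub _ hg0, ?_⟩
      show A * ρ g * B = _
      rw [hg, hexp])
  refine ⟨L, fun t ht hts => ?_⟩
  obtain ⟨N, hN, hNf, hNP⟩ := hL t ht hts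
  refine ⟨N, hN, hNf, fun i g a Z hZ hZ0 hg => ?_⟩
  refine hNP i g a (A * Z * B) ?_ (hcub Z hZ0) ?_
  · rw [hZ, hsum]
  · show A * ρ g * B = _
    rw [hg, hexp]

end Pool.Agent.CuspCov
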